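import Mathlib

/-!
# Failure of an Ado-type theorem for CD algebras

An anticommutative algebra `A` is a CD algebra if all commutators `[R_a, R_b]` of right
multiplications are derivations.  We show that, over every field of characteristic different
from `2`, there is a five-dimensional CD algebra none of whose modules (of any
dimension) is faithful.

The reason: if `A` is CD, then `[[R_b, R_a], R_c] = R_{(ca)b - (cb)a}`, and the Jacobi identity
for operators gives `R_{2J(a,b,c)} = 0`, with `J(a,b,c) = (ab)c + (bc)a + (ca)b`.  Applied to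
the CD algebra `A ⊕ M` this shows that `J(a,b,c)` kills every module `M`.
-/

universe u v

namespace Pool.Agent.Results.MP_361790_al.AdoFails

/-- Right multiplication `R_a : x ↦ x a` for a bilinear product `mul`. -/
def rightMul {K : Type*} [Field K] {A : Type*} [AddCommGroup A] [Module K A]
    (mul : A →ₗ[K] A →ₗ[K] A) (a : A) : A →ₗ[K] A := mul.flip a

/-- A linear map `D` is a derivation of the algebra with product `mul`. -/
def IsDerivationOf {K : Type*} [Field K] {A : Type*} [AddCommGroup A] [Module K A]
    (mul : A →ₗ[K] A →ₗ[K] A) (D : A →ₗ[K] A) : Prop :=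
  ∀ x y : A, D (mul x y) = mul (D x) y + mul x (D y)

/-- The bilinear product `mul` makes `A` a CD algebra: it is anticommutative (`xx = 0`) and
every commutator `[R_a, R_b]` of right multiplications is a derivation. -/
def IsCD {K : Type*} [Field K] {A : Type*} [AddCommGroup A] [Module K A]
    (mul : A →ₗ[K] A →ₗ[K] A) : Prop :=
  (∀ x : A, mul x x = 0) ∧
    ∀ a b : A, IsDerivationOf mul
      ((rightMul mul a).comp (rightMul mul b) - (rightMul mul b).comp (rightMul mul a))

/-- The product `(a,m)(b,n) = (ab, a•n - b•m)` on `A × M`, for a product `mul` on `A` and a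
bilinear action `act : A × M → M`. -/
def extMul {K : Type*} [Field K] {A : Type*} [AddCommGroup A] [Module K A]
    {M : Type*} [AddCommGroup M] [Module K M]
    (mul : A →ₗ[K] A →ₗ[K] A) (act : A →ₗ[K] M →ₗ[K] M) :
    (A × M) →ₗ[K] (A × M) →ₗ[K] (A × M) :=
  LinearMap.mk₂ K (fun p q : A × M => (mul p.1 q.1, act p.1 q.2 - act q.1 p.2))
    (by intro p p' q; ext <;> simp; abel)
    (by intro c p q; ext <;> simp [smul_sub])
    (by intro p q q'; ext <;> simp; abel)
    (by intro c p q; ext <;> simp [smul_sub])

/-- `M` with the bilinear action `act` is a module over the CD algebra `(A, mul)`: the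
product `extMul` on `A × M` is again CD. -/
def IsModule {K : Type*} [Field K] {A : Type*} [AddCommGroup A] [Module K A]
    {M : Type*} [AddCommGroup M] [Module K M]
    (mul : A →ₗ[K] A →ₗ[K] A) (act : A →ₗ[K] M →ₗ[K] M) : Prop :=
  IsCD (extMul mul act)

/-- The action `act` is faithful: only `0` acts as zero. -/
def Faithful {K : Type*} [Field K] {A : Type*} [AddCommGroup A] [Module K A]
    {M : Type*} [AddCommGroup M] [Module K M]
    (act : A →ₗ[K] M →ₗ[K] M) : Prop :=
  ∀ a : A, (∀ m : M, act a m = 0) → a = 0

theorem jacobi_central {K : Type*} [Field K] {A : Type*} [AddCommGroup A] [Module K A]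
    {mul : A →ₗ[K] A →ₗ[K] A} (h2 : (2 : K) ≠ 0) (h : IsCD mul)
    (a b c x : A) :
    mul (mul (mul a b) c + mul (mul b c) a + mul (mul c a) b) x = 0 := by
  have anti : ∀ x y : A, mul x y = - mul y x := by
    intro x y
    have h1 := h.1 (x + y)
    simp only [map_add, LinearMap.add_apply, h.1, zero_add, add_zero] at h1
    exact eq_neg_of_add_eq_zero_right h1
  have key : ∀ a b x y : A,
      mul (mul (mul x y) b) a - mul (mul (mul x y) a) b
        = mul (mul (mul x b) a) y - mul (mul (mul x a) b) y
          + (mul x (mul (mul y b) a) - mul x (mul (mul y a) b)) := by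
    intro a b x y
    have := h.2 a b x y
    simpa [rightMul] using this
  have k1 := key a b x c
  have k2 := key b c x a
  have k3 := key c a x b
  have e : (2 : K) • mul (mul (mul a b) c + mul (mul b c) a + mul (mul c a) b) x = 0 := by
    rw [anti _ x]
    simp only [map_add, smul_neg, two_smul]
    rw [anti c b] at k1
    rw [anti a c] at k2
    rw [anti b a] at k3
    simp only [map_neg, LinearMap.neg_apply] at k1 k2 k3
    have := congrArg₂ (· + ·) (congrArg₂ (· + ·) k1 k2) k3
    rw [← sub_eq_zero] at this
    rw [← neg_eq_zero, ← this]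
    abel
  exact (smul_eq_zero.mp e).resolve_left h2

/-- The product on `K^5` (basis `x, y, z, u, c`) with `xy = u = -yx`, `uz = c = -zu` and all
other products of basis vectors zero. -/
def mul5 (K : Type*) [Field K] : (Fin 5 → K) →ₗ[K] (Fin 5 → K) →ₗ[K] (Fin 5 → K) :=
  LinearMap.mk₂ K
    (fun p q => ![0, 0, 0, p 0 * q 1 - p 1 * q 0, p 3 * q 2 - p 2 * q 3])
    (by intro p p' q; ext i; fin_cases i <;> simp <;> ring)
    (by intro c p q; ext i; fin_cases i <;> simp <;> ring)
    (by intro p q q'; ext i; fin_cases i <;> simp <;> ring)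
    (by intro c p q; ext i; fin_cases i <;> simp <;> ring)

theorem isCD_mul5 (K : Type*) [Field K] : IsCD (mul5 K) := by
  constructor
  · intro x
    ext i
    fin_cases i <;> simp [mul5, mul_comm]
  · intro a b x y
    ext i
    fin_cases i <;> simp [mul5, rightMul]

/-- **Main result.** Over every field `K` with `char K ≠ 2` (so in particular whenever
`char K ≠ 2, 3`) there is a finite-dimensional
(in fact five-dimensional) CD algebra such that no module over it, of any dimension, is
faithful. -/
theorem result (K : Type u) [Field K] (h2 : (2 : K) ≠ 0) :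
    ∃ mul : (Fin 5 → K) →ₗ[K] (Fin 5 → K) →ₗ[K] (Fin 5 → K), IsCD mul ∧
      ∀ (M : Type v) [AddCommGroup M] [Module K M] (act : (Fin 5 → K) →ₗ[K] M →ₗ[K] M),
        IsModule mul act → ¬ Faithful act := by
  refine ⟨mul5 K, isCD_mul5 K, ?_⟩
  intro M _ _ act hM hf
  have h := hf (![0, 0, 0, 0, 1] : Fin 5 → K) ?_
  · have := congrFun h 4
    simp at this
  · intro m
    have key := jacobi_central h2 hM ((![1, 0, 0, 0, 0] : Fin 5 → K), (0 : M))
      ((![0, 1, 0, 0, 0] : Fin 5 → K), (0 : M)) ((![0, 0, 1, 0, 0] : Fin 5 → K), (0 : M))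
      ((0 : Fin 5 → K), m)
    have key2 := congrArg Prod.snd key
    simpa [extMul, mul5] using key2

end Pool.Agent.Results.MP_361790_al.AdoFails
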